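import Pool.Agent.Helper71.CP2.Two

set_option autoImplicit false

namespace Pool.Agent.Helper71.CP2

open Module IntermediateField
open scoped IntermediateField.algebraAdjoinAdjoin

/-- the generator -/
def gen {m : ℕ} {k Ω : Type} [Field k] [Field Ω] [Algebra k Ω] (u : Fin m → Ω) (i : Fin m) :
    adjoin k (Set.range u) := ⟨u i, subset_adjoin k _ ⟨i, rfl⟩⟩

theorem claim : ∀ (m : ℕ) (k Ω : Type) [Field k] [CharZero k] [Field Ω] [Algebra k Ω]
    (u : Fin m → Ω), AlgebraicIndependent k u →
    ∀ (L : Type) [Field L] [Algebra (adjoin k (Set.range u)) L],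
      ¬ 3 ∣ finrank (adjoin k (Set.range u)) L →
    ∀ H : MvPolynomial (Fin m) k, H.IsHomogeneous 3 → ∀ x : Fin m → L,
      (∑ i, algebraMap (adjoin k (Set.range u)) L (gen u i) * x i ^ 3 +
        MvPolynomial.eval₂ ((algebraMap (adjoin k (Set.range u)) L).comp
          (algebraMap k (adjoin k (Set.range u)))) x H = 0) → x = 0 := by
  intro m
  induction m with
  | zero => intro k Ω _ _ _ _ u _ L _ _ _ H _ x _; exact Subsingleton.elim _ _
  | succ m ih =>
    intro k Ω _ _ _ _ u hu L _ _ h3 H hH x hx
    by_contra hx0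
    have hle : adjoin k (Set.range (u ∘ Fin.castSucc)) ≤ adjoin k (Set.range u) :=
      adjoin.mono k _ _ (Set.range_comp_subset_range _ _)
    let E0 := adjoin k (Set.range (u ∘ Fin.castSucc))
    let E := adjoin k (Set.range u)
    let φ : E0 →+* E := (inclusion hle).toRingHom
    have hw0 : u (Fin.last m) ≠ 0 := hu.ne_zero _
    let t : E := (gen u (Fin.last m))⁻¹
    have htr : Transcendental E0 (u (Fin.last m)) := by
      have h1 : Transcendental (Algebra.adjoin k (u '' Set.range Fin.castSucc)) (u (Fin.last m)) := by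
        refine hu.transcendental_adjoin ?_
        rintro ⟨j, hj⟩
        exact (Fin.castSucc_lt_last j).ne hj
      rw [← Set.range_comp] at h1
      intro h2
      exact h1 ((IsFractionRing.isAlgebraic_iff
        (Algebra.adjoin k (Set.range (u ∘ Fin.castSucc))) E0 Ω).2 h2)
    have htr' : Transcendental E0 (u (Fin.last m))⁻¹ := fun h => htr (IsAlgebraic.inv_iff.1 h)
    have hev : ∀ f : Polynomial E0, ((f.eval₂ φ t : E) : Ω) =
        Polynomial.aeval (u (Fin.last m))⁻¹ f := by
      intro f
      have h1 := Polynomial.hom_eval₂ f φ (algebraMap E Ω) t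
      rw [Polynomial.aeval_def]
      exact h1
    have hinj : Function.Injective (Polynomial.eval₂RingHom φ t) := by
      intro f g hfg
      apply transcendental_iff_injective.1 htr'
      rw [← hev, ← hev]
      exact congrArg Subtype.val hfg
    have hsur : ∀ z : E, ∃ f g : Polynomial E0, z = f.eval₂ φ t / g.eval₂ φ t := by
      intro z
      have h1 : adjoin k (Set.range u) ≤
          (adjoin E0 {(u (Fin.last m))⁻¹}).restrictScalars k := by
        rw [adjoin_le_iff]
        rintro _ ⟨i, rfl⟩
        show u i ∈ adjoin E0 {(u (Fin.last m))⁻¹}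
        refine Fin.lastCases ?_ (fun j => ?_) i
        · have h2 : (u (Fin.last m))⁻¹ ∈ adjoin E0 {(u (Fin.last m))⁻¹} :=
            subset_adjoin _ _ rfl
          have h3 := inv_mem h2
          rwa [inv_inv] at h3
        · have h2 : u (Fin.castSucc j) ∈ E0 := subset_adjoin k _ ⟨j, rfl⟩
          exact (adjoin E0 {(u (Fin.last m))⁻¹}).algebraMap_mem ⟨_, h2⟩
      have h2 : (z : Ω) ∈ adjoin E0 {(u (Fin.last m))⁻¹} := h1 z.2
      obtain ⟨r, s, hrs⟩ := (mem_adjoin_simple_iff E0 (z : Ω)).1 h2
      refine ⟨r, s, Subtype.ext ?_⟩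
      rw [hrs, ← hev, ← hev]
      rfl
    let A : MvPolynomial (Fin (m + 1)) E0 :=
      ∑ j : Fin m, MvPolynomial.C (gen (u ∘ Fin.castSucc) j) * MvPolynomial.X j.castSucc ^ 3 +
        MvPolynomial.map (algebraMap k E0) H
    have hA : A.IsHomogeneous 3 := by
      refine MvPolynomial.IsHomogeneous.add ?_ (hH.map _)
      exact MvPolynomial.IsHomogeneous.sum _ _ _ fun j _ =>
        (MvPolynomial.isHomogeneous_X_pow _ _).C_mul _
    have hAe : ∀ (L₁ : Type) [Field L₁] (f : E0 →+* L₁) (y : Fin (m + 1) → L₁),
        MvPolynomial.eval₂ f y A = ∑ j : Fin m, f (gen (u ∘ Fin.castSucc) j) * y j.castSucc ^ 3 +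
          MvPolynomial.eval₂ (f.comp (algebraMap k E0)) y H := by
      intro L₁ _ f y
      simp only [A, MvPolynomial.eval₂_add, MvPolynomial.eval₂_sum, MvPolynomial.eval₂_mul,
        MvPolynomial.eval₂_C, MvPolynomial.eval₂_pow, MvPolynomial.eval₂_X,
        MvPolynomial.eval₂_map]
    have htW : algebraMap E L t * algebraMap E L (gen u (Fin.last m)) = 1 := by
      rw [← map_mul, inv_mul_cancel₀, map_one]
      intro h
      exact hw0 (congrArg Subtype.val h)
    have hz : algebraMap E L t * MvPolynomial.eval₂ ((algebraMap E L).comp φ) x A +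
        x (Fin.last m) ^ 3 = 0 := by
      rw [hAe]
      rw [Fin.sum_univ_castSucc] at hx
      have h1 : (((algebraMap E L).comp φ).comp (algebraMap k E0)) =
          (algebraMap E L).comp (algebraMap k E) := by
        ext z
        rfl
      rw [h1]
      have h2 : ∀ j : Fin m, ((algebraMap E L).comp φ) (gen (u ∘ Fin.castSucc) j) =
          algebraMap E L (gen u j.castSucc) := fun j => rfl
      simp only [h2]
      have h3 : x (Fin.last m) ^ 3 = algebraMap E L t *
          (algebraMap E L (gen u (Fin.last m)) * x (Fin.last m) ^ 3) := by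
        rw [← mul_assoc, htW, one_mul]
      rw [h3, ← mul_add]
      have h4 := congrArg (fun z => algebraMap E L t * z) hx
      simp only [mul_zero] at h4
      rw [← h4]
      congr 1
      ring
    obtain ⟨L', _, _, h3', y, hy0, hyl, hyA⟩ := one E0 E L φ h3 t hinj hsur A hA x hx0 hz
    rw [hAe] at hyA
    let H' : MvPolynomial (Fin m) k :=
      MvPolynomial.aeval (Fin.snoc (fun j => MvPolynomial.X j) 0 :
        Fin (m + 1) → MvPolynomial (Fin m) k) H
    have hH' : H'.IsHomogeneous 3 := by
      have h1 := hH.aeval (n := 1) (Fin.snoc (fun j => MvPolynomial.X j) 0 :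
        Fin (m + 1) → MvPolynomial (Fin m) k) (by
          intro i
          refine Fin.lastCases ?_ (fun j => ?_) i
          · rw [Fin.snoc_last]; exact MvPolynomial.isHomogeneous_zero _ _ _
          · rw [Fin.snoc_castSucc]; exact MvPolynomial.isHomogeneous_X _ _)
      rw [one_mul] at h1
      exact h1
    have h5 := ih k Ω (u ∘ Fin.castSucc) (hu.comp _ (Fin.castSucc_injective m)) L' h3' H' hH'
      (fun j : Fin m => y j.castSucc) (by
        rw [← hyA]
        congr 1
        show MvPolynomial.eval₂Hom _ (fun j : Fin m => y j.castSucc) (MvPolynomial.aeval _ H) = _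
        rw [MvPolynomial.aeval_def, MvPolynomial.hom_eval₂]
        have e1 : (MvPolynomial.eval₂Hom ((algebraMap E0 L').comp (algebraMap k E0))
            (fun j : Fin m => y j.castSucc)).comp (algebraMap k (MvPolynomial (Fin m) k)) =
            (algebraMap E0 L').comp (algebraMap k E0) := by
          ext z
          simp [MvPolynomial.algebraMap_eq]
        rw [e1]
        congr 1
        funext i
        refine Fin.lastCases ?_ (fun j => ?_) i
        · rw [Fin.snoc_last, map_zero, hyl]
        · rw [Fin.snoc_castSucc]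
          simp)
    apply hy0
    funext i
    refine Fin.lastCases ?_ (fun j => ?_) i
    · exact hyl
    · exact congrFun h5 j

end Pool.Agent.Helper71.CP2
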