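import Pool.Agent.Helper19.CP.Spec
import Pool.Agent.Helper71.CP2.Three

set_option autoImplicit false

namespace Pool.Agent.Helper71.CP.IX3

open Module IntermediateField Pool.Agent.Helper71.CP2
open Pool.Agent.Helper19.CP (Generic coefField S_IX3)

theorem main : S_IX3 := by
  classical
  intro m F K'' hF hK h3 x hxK hx
  obtain ⟨hFh, hFi⟩ := hF
  let a : {α : Fin m →₀ ℕ // α.degree = 3} → ℂ := fun α => F.coeff α.1
  let cu : Fin m → {α : Fin m →₀ ℕ // α.degree = 3} :=
    fun i => ⟨Finsupp.single i 3, by simp⟩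
  have hcu : Function.Injective cu := by
    intro i j h
    exact Finsupp.single_left_injective (by norm_num : (3 : ℕ) ≠ 0) (congrArg Subtype.val h)
  let k : IntermediateField ℚ ℂ := adjoin ℚ (a '' (Set.range cu)ᶜ)
  let u : Fin m → ℂ := fun i => a (cu i)
  have hu : AlgebraicIndependent k u := by
    have h1 := hFi.adjoin_of_disjoint (s := (Set.range cu)ᶜ) (t := Set.range cu)
      disjoint_compl_left
    have h2 : AlgebraicIndependent (Algebra.adjoin ℚ (a '' (Set.range cu)ᶜ)) u :=
      h1.comp (fun i => (⟨cu i, ⟨i, rfl⟩⟩ : Set.range cu)) (fun i j h => hcu (congrArg Subtype.val h))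
    exact IntermediateField.algebraicIndependent_adjoin_iff.2 h2
  let E : IntermediateField k ℂ := adjoin k (Set.range u)
  have hdeg : ∀ α, F.coeff α ≠ 0 → α.degree = 3 := by
    intro α h0
    have h1 := hFh h0
    rw [Finsupp.degree_eq_weight_one]
    exact h1
  have hkK : ∀ z : ℂ, z ∈ k → z ∈ coefField F := by
    have h1 : k.toSubfield ≤ coefField F := by
      rw [adjoin_toSubfield, Subfield.closure_le]
      rintro _ (⟨q, rfl⟩ | ⟨α, -, rfl⟩)
      · rw [eq_ratCast]
        exact SubfieldClass.ratCast_mem _ _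
      · exact Subfield.subset_closure ⟨α.1, rfl⟩
    exact fun z hz => h1 hz
  have hle1 : ∀ z : ℂ, z ∈ E → z ∈ coefField F := by
    have h1 : E.toSubfield ≤ coefField F := by
      rw [adjoin_toSubfield, Subfield.closure_le]
      rintro _ (⟨z, rfl⟩ | ⟨i, rfl⟩)
      · exact hkK _ z.2
      · exact Subfield.subset_closure ⟨_, rfl⟩
    exact fun z hz => h1 hz
  have hnc : ∀ α, F.coeff α ≠ 0 → (∀ i, α ≠ Finsupp.single i 3) → F.coeff α ∈ k := by
    intro α h0 hα
    refine subset_adjoin ℚ _ ⟨⟨α, hdeg α h0⟩, ?_, rfl⟩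
    rintro ⟨i, hi⟩
    exact hα i (congrArg Subtype.val hi).symm
  have hle2 : ∀ z : ℂ, z ∈ coefField F → z ∈ E := by
    have h1 : coefField F ≤ E.toSubfield := by
      rw [coefField, Subfield.closure_le]
      rintro _ ⟨α, rfl⟩
      show F.coeff α ∈ E
      by_cases h0 : F.coeff α = 0
      · rw [h0]; exact E.zero_mem
      by_cases hc : ∃ i, α = Finsupp.single i 3
      · obtain ⟨i, rfl⟩ := hc
        exact subset_adjoin k _ ⟨i, rfl⟩
      · push Not at hc
        exact E.algebraMap_mem ⟨_, hnc α h0 hc⟩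
    exact fun z hz => h1 hz
  letI : Algebra E K'' := RingHom.toAlgebra
    { toFun := fun z => ⟨z.1, hK (hle1 _ z.2)⟩
      map_one' := rfl
      map_mul' := fun _ _ => rfl
      map_zero' := rfl
      map_add' := fun _ _ => rfl }
  have h3' : ¬ 3 ∣ finrank E K'' := by
    have e : (coefField F).relfinrank K'' = finrank E K'' := by
      rw [Subfield.relfinrank_eq_finrank_of_le hK]
      refine Algebra.finrank_eq_of_equiv_equiv
        { toFun := fun z => ⟨z.1, hle2 _ z.2⟩
          invFun := fun z => ⟨z.1, hle1 _ z.2⟩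
          left_inv := fun _ => rfl
          right_inv := fun _ => rfl
          map_mul' := fun _ _ => rfl
          map_add' := fun _ _ => rfl }
        { toFun := fun z => ⟨z.1, z.2⟩
          invFun := fun z => ⟨z.1, z.2⟩
          left_inv := fun _ => rfl
          right_inv := fun _ => rfl
          map_mul' := fun _ _ => rfl
          map_add' := fun _ _ => rfl } ?_
      ext z
      rfl
    rwa [← e]
  let F' : MvPolynomial (Fin m) ℂ := F - ∑ i, MvPolynomial.C (u i) * MvPolynomial.X i ^ 3
  have hF'h : F'.IsHomogeneous 3 :=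
    hFh.sub (MvPolynomial.IsHomogeneous.sum _ _ _ fun j _ =>
      (MvPolynomial.isHomogeneous_X_pow _ _).C_mul _)
  have hF'r : F' ∈ Set.range (MvPolynomial.map (algebraMap k ℂ)) := by
    rw [MvPolynomial.mem_range_map_iff_coeffs_subset]
    intro c hc
    obtain ⟨α, -, rfl⟩ := MvPolynomial.mem_coeffs_iff.1 hc
    have e1 : F'.coeff α = F.coeff α - ∑ i, u i * (if Finsupp.single i 3 = α then 1 else 0) := by
      simp only [F', MvPolynomial.coeff_sub, MvPolynomial.coeff_sum, MvPolynomial.coeff_C_mul,
        MvPolynomial.coeff_X_pow]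
    rw [e1]
    by_cases hα : ∃ j, α = Finsupp.single j 3
    · obtain ⟨j, rfl⟩ := hα
      rw [Finset.sum_eq_single j]
      · rw [if_pos rfl, mul_one]
        exact ⟨0, by simp [u, a, cu]⟩
      · intro i _ hij
        rw [if_neg, mul_zero]
        intro h
        exact hij (Finsupp.single_left_injective (by norm_num : (3 : ℕ) ≠ 0) h)
      · intro h
        exact absurd (Finset.mem_univ j) h
    · push Not at hα
      rw [Finset.sum_eq_zero (fun i _ => by rw [if_neg (fun h => hα i h.symm), mul_zero]), sub_zero]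
      by_cases h0 : F.coeff α = 0
      · rw [h0]; exact ⟨0, map_zero _⟩
      · exact ⟨⟨_, hnc α h0 hα⟩, rfl⟩
  obtain ⟨H, hH⟩ := hF'r
  have hHh : H.IsHomogeneous 3 :=
    MvPolynomial.IsHomogeneous.of_map (algebraMap k ℂ).injective (by rw [hH]; exact hF'h)
  have key := claim m k ℂ u hu K'' h3' H hHh (fun i => ⟨x i, hxK i⟩) (by
    apply K''.subtype.injective
    rw [map_add, map_sum, MvPolynomial.hom_eval₂, map_zero]
    have e1 : (K''.subtype.comp ((algebraMap E K'').comp (algebraMap k E))) = algebraMap k ℂ := by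
      ext z
      rfl
    have e2 : (fun i => K''.subtype ⟨x i, hxK i⟩) = x := rfl
    rw [e1, e2]
    have e3 : MvPolynomial.eval₂ (algebraMap k ℂ) x H = MvPolynomial.eval x F' := by
      rw [← hH, MvPolynomial.eval_map]
    rw [e3]
    have e4 : MvPolynomial.eval x F' = MvPolynomial.eval x F - ∑ i, u i * x i ^ 3 := by
      simp [F']
    rw [e4, hx, zero_sub]
    have e5 : ∀ i : Fin m, K''.subtype (algebraMap E K'' (gen u i) *
        (⟨x i, hxK i⟩ : K'') ^ 3) = u i * x i ^ 3 := fun i => rfl
    rw [Finset.sum_congr rfl fun i _ => e5 i]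
    ring)
  funext i
  exact congrArg Subtype.val (congrFun key i)

end Pool.Agent.Helper71.CP.IX3
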