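import Mathlib

set_option autoImplicit false

namespace Pool.Agent.Helper71.CP2

open IsDedekindDomain WithZero Module

theorem red {S : Type} [CommRing S] [IsDedekindDomain S] (P : HeightOneSpectrum S) (T : S)
    (hT : T ≠ 0) (hTP : T ∈ P.asIdeal)
    (h3 : ¬ 3 ∣ multiplicity P.asIdeal (Ideal.span {T})) (a A : S) (h : T * A + a ^ 3 = 0) :
    a ∈ P.asIdeal ∧ A ∈ P.asIdeal := by
  have h0 : a ^ 3 = -(T * A) := by linear_combination h
  have ha : a ∈ P.asIdeal := by
    refine P.isPrime.mem_of_pow_mem 3 ?_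
    rw [h0]
    exact P.asIdeal.neg_mem (P.asIdeal.mul_mem_right _ hTP)
  refine ⟨ha, ?_⟩
  by_contra hA
  have hA1 : P.intValuation A = 1 := HeightOneSpectrum.intValuation_eq_one_iff.2 hA
  have hA0 : A ≠ 0 := by rintro rfl; exact hA (Submodule.zero_mem _)
  have ha0 : a ≠ 0 := by
    rintro rfl
    have : T * A = 0 := by simpa using h
    rcases mul_eq_zero.1 this with h | h
    · exact hT h
    · exact hA0 h
  have h1 : P.intValuation a ^ 3 = P.intValuation T := by
    rw [← map_pow, h0, Valuation.map_neg, map_mul, hA1, mul_one]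
  rw [P.intValuation_eq_exp_neg_multiplicity ha0, P.intValuation_eq_exp_neg_multiplicity hT,
    ← exp_nsmul] at h1
  have h2 := exp_injective h1
  apply h3
  have h4 : (multiplicity P.asIdeal (Ideal.span {T}) : ℤ) =
      3 * (multiplicity P.asIdeal (Ideal.span {a}) : ℤ) := by
    simp only [smul_neg, nsmul_eq_mul, Nat.cast_ofNat] at h2
    linarith
  exact ⟨multiplicity P.asIdeal (Ideal.span {a}), by exact_mod_cast h4⟩

theorem clear {S L : Type} [CommRing S] [IsDedekindDomain S] [Field L] [Algebra S L]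
    [IsFractionRing S L] (P : HeightOneSpectrum S) {m : ℕ} (x : Fin (m + 1) → L) (hx : x ≠ 0) :
    ∃ (c : L) (a : Fin (m + 1) → S), (∀ i, algebraMap S L (a i) = c * x i) ∧
      ∃ i, a i ∉ P.asIdeal := by
  classical
  obtain ⟨i0, hi0⟩ := Finite.exists_max (fun i => P.valuation L (x i))
  have hx0 : x i0 ≠ 0 := by
    intro h
    apply hx
    funext j
    have h1 := hi0 j
    simp only [h, map_zero, le_zero_iff] at h1
    simpa using h1
  have hv0 : P.valuation L (x i0) ≠ 0 := (Valuation.ne_zero_iff _).2 hx0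
  have hle : ∀ i, P.valuation L (x i / x i0) ≤ 1 := by
    intro i
    rw [map_div₀]
    exact div_le_one_of_le₀ (hi0 i) zero_le
  choose nn d hd using fun i => P.exists_primeCompl_mul_eq_of_integer (x i / x i0) (hle i)
  let D : S := ∏ j, (d j : S)
  have hD : D ∈ P.asIdeal.primeCompl := Submonoid.prod_mem _ fun j _ => (d j).2
  let a : Fin (m + 1) → S := fun i => nn i * ∏ j ∈ Finset.univ.erase i, (d j : S)
  have ha : ∀ i, algebraMap S L (a i) = ((x i0)⁻¹ * algebraMap S L D) * x i := by
    intro i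
    have h1 : D = (d i : S) * ∏ j ∈ Finset.univ.erase i, (d j : S) :=
      (Finset.mul_prod_erase _ _ (Finset.mem_univ i)).symm
    rw [h1]
    simp only [a, map_mul]
    rw [← hd i]
    field_simp
  refine ⟨(x i0)⁻¹ * algebraMap S L D, a, ha, i0, ?_⟩
  have h2 : a i0 = D := by
    apply IsFractionRing.injective S L
    rw [ha i0]
    field_simp
  rw [h2]
  exact hD

theorem eval_smul {k L : Type} [CommRing k] [CommRing L] (f : k →+* L) {m d : ℕ}
    (A : MvPolynomial (Fin m) k) (hA : A.IsHomogeneous d) (c : L) (x : Fin m → L) :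
    MvPolynomial.eval₂ f (fun i => c * x i) A = c ^ d * MvPolynomial.eval₂ f x A := by
  rw [MvPolynomial.eval₂_eq', MvPolynomial.eval₂_eq', Finset.mul_sum]
  refine Finset.sum_congr rfl fun e he => ?_
  have h1 : ∑ i, e i = d := by
    have := hA (MvPolynomial.mem_support_iff.1 he)
    rw [← this, Finsupp.weight_apply, Finsupp.sum_fintype _ _ (by simp)]
    simp
  rw [← h1, ← Finset.prod_pow_eq_pow_sum]
  simp only [mul_pow, Finset.prod_mul_distrib]
  ring

end Pool.Agent.Helper71.CP2
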