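import Pool.Agent.Helper71.CP2.One

set_option autoImplicit false

namespace Pool.Agent.Helper71.CP2

open IsDedekindDomain Module Polynomial

theorem one {m : ℕ} (E0 E L : Type) [Field E0] [CharZero E0] [Field E] [Field L]
    (φ : E0 →+* E) [Algebra E L] (h3 : ¬ 3 ∣ finrank E L) (t : E)
    (hinj : Function.Injective (Polynomial.eval₂RingHom φ t))
    (hsur : ∀ z : E, ∃ f g : Polynomial E0, z = f.eval₂ φ t / g.eval₂ φ t)
    (A : MvPolynomial (Fin (m + 1)) E0) (hA : A.IsHomogeneous 3) (x : Fin (m + 1) → L)
    (hx : x ≠ 0)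
    (hz : algebraMap E L t * MvPolynomial.eval₂ ((algebraMap E L).comp φ) x A +
      x (Fin.last m) ^ 3 = 0) :
    ∃ (L' : Type) (_ : Field L') (_ : Algebra E0 L'), ¬ 3 ∣ finrank E0 L' ∧
      ∃ y : Fin (m + 1) → L', y ≠ 0 ∧ y (Fin.last m) = 0 ∧
        MvPolynomial.eval₂ (algebraMap E0 L') y A = 0 := by
  classical
  have hfr : 0 < finrank E L := Nat.pos_of_ne_zero fun h => h3 (h ▸ dvd_zero 3)
  haveI : FiniteDimensional E L := Module.finite_of_finrank_pos hfr
  haveI : CharZero E := charZero_of_injective_ringHom φ.injective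
  letI algRE : Algebra E0[X] E := (Polynomial.eval₂RingHom φ t).toAlgebra
  haveI : FaithfulSMul E0[X] E := (faithfulSMul_iff_algebraMap_injective _ _).2 hinj
  haveI : IsFractionRing E0[X] E := IsFractionRing.of_field E0[X] E hsur
  letI algRL : Algebra E0[X] L := ((algebraMap E L).comp (algebraMap E0[X] E)).toAlgebra
  haveI : IsScalarTower E0[X] E L := IsScalarTower.of_algebraMap_eq fun _ => rfl
  haveI : FaithfulSMul E0[X] L := (faithfulSMul_iff_algebraMap_injective _ _).2
    ((algebraMap E L).injective.comp hinj)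
  haveI : Module.IsTorsionFree E0[X] L := inferInstance
  let S := integralClosure E0[X] L
  haveI : IsDedekindDomain S := integralClosure.isDedekindDomain E0[X] E L
  haveI : IsFractionRing S L := integralClosure.isFractionRing_of_finite_extension E L
  haveI : Module.Finite E0[X] S := IsIntegralClosure.finite E0[X] E L S
  haveI : Module.Free E0[X] S := IsIntegralClosure.module_free E0[X] E L S
  have hrank : finrank E0[X] S = finrank E L := IsIntegralClosure.rank E0[X] E L S
  let p : Ideal E0[X] := Ideal.span {X}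
  haveI hpm : p.IsMaximal := PrincipalIdealRing.isMaximal_of_irreducible Polynomial.irreducible_X
  haveI : Fintype (p.primesOver S) := Set.Finite.fintype (Algebra.QuasiFinite.finite_primesOver p)
  have hsum := Ideal.sum_ramification_inertia_eq_finrank p S
  obtain ⟨q, hq⟩ : ∃ q : p.primesOver S, ¬ 3 ∣ q.1.ramificationIdx E0[X] * q.1.inertiaDeg E0[X] := by
    by_contra hcon
    push Not at hcon
    apply h3
    rw [← hrank, ← hsum]
    exact Finset.dvd_sum fun q _ => hcon q
  have hqe : ¬ 3 ∣ q.1.ramificationIdx E0[X] := fun h => hq (h.mul_right _)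
  have hqf : ¬ 3 ∣ q.1.inertiaDeg E0[X] := fun h => hq (h.mul_left _)
  haveI : q.1.IsPrime := inferInstance
  haveI : q.1.LiesOver p := inferInstance
  haveI hqm : q.1.IsMaximal := Ideal.IsMaximal.of_liesOver_isMaximal q.1 p
  let T : S := algebraMap E0[X] S X
  have hTL : algebraMap S L T = algebraMap E L t := by
    show algebraMap S L (algebraMap E0[X] S X) = _
    rw [← IsScalarTower.algebraMap_apply]
    show algebraMap E L (Polynomial.eval₂RingHom φ t X) = _
    simp
  have hinjRS : Function.Injective (algebraMap E0[X] S) := by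
    intro a b hab
    have h1 : algebraMap E0[X] L a = algebraMap E0[X] L b := by
      rw [IsScalarTower.algebraMap_apply E0[X] S L, hab,
        ← IsScalarTower.algebraMap_apply E0[X] S L]
    exact (algebraMap E L).injective.comp hinj h1
  have hT : T ≠ 0 := by
    intro h
    have h1 : algebraMap E0[X] S X = algebraMap E0[X] S 0 := by rw [map_zero]; exact h
    exact Polynomial.X_ne_zero (hinjRS h1)
  have hmap : p.map (algebraMap E0[X] S) = Ideal.span {T} := by
    rw [Ideal.map_span, Set.image_singleton]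
  have hmap0 : p.map (algebraMap E0[X] S) ≠ ⊥ := by
    rw [hmap]
    intro h
    rw [Ideal.span_singleton_eq_bot] at h
    exact hT h
  have hTq : T ∈ q.1 := by
    have h1 : (X : E0[X]) ∈ p := Ideal.subset_span rfl
    have h2 := (Ideal.mem_of_liesOver q.1 p X).1 h1
    exact h2
  have hq0 : q.1 ≠ ⊥ := by
    intro h
    rw [h] at hTq
    exact hT hTq
  let P : HeightOneSpectrum S := ⟨q.1, inferInstance, hq0⟩
  have hmul : ¬ 3 ∣ multiplicity P.asIdeal (Ideal.span {T}) := by
    rw [← hmap]
    rw [Ideal.IsDedekindDomain.ramificationIdx_eq_multiplicity p q.1 hmap0] at hqe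
    exact hqe
  obtain ⟨c, a, hca, i0, hi0⟩ := clear (L := L) P x hx
  -- the equation in `S`
  let g : E0 →+* S := (algebraMap E0[X] S).comp Polynomial.C
  have hgL : (algebraMap S L).comp g = (algebraMap E L).comp φ := by
    ext z
    show algebraMap S L (algebraMap E0[X] S (Polynomial.C z)) = algebraMap E L (φ z)
    rw [← IsScalarTower.algebraMap_apply]
    show algebraMap E L (Polynomial.eval₂RingHom φ t (Polynomial.C z)) = _
    simp
  have heq : T * MvPolynomial.eval₂ g a A + a (Fin.last m) ^ 3 = 0 := by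
    apply IsFractionRing.injective S L
    rw [map_add, map_mul, map_pow, map_zero, MvPolynomial.hom_eval₂, hgL, hTL]
    have h1 : (fun i => algebraMap S L (a i)) = fun i => c * x i := by
      funext i; exact hca i
    rw [h1, eval_smul _ A hA, hca]
    linear_combination c ^ 3 * hz
  obtain ⟨hal, hAq⟩ := red P T hT hTq hmul (a (Fin.last m)) (MvPolynomial.eval₂ g a A) heq
  letI : Field (S ⧸ q.1) := Ideal.Quotient.field q.1
  letI : Algebra E0 (S ⧸ q.1) := ((Ideal.Quotient.mk q.1).comp g).toAlgebra
  refine ⟨S ⧸ q.1, inferInstance, inferInstance, ?_, fun i => Ideal.Quotient.mk q.1 (a i), ?_, ?_,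
    ?_⟩
  · have h1 : q.1.inertiaDeg E0[X] = finrank (E0[X] ⧸ p) (S ⧸ q.1) :=
      Ideal.inertiaDeg_eq_of_isMaximal p q.1
    have hbij : Function.Bijective ((Ideal.Quotient.mk p).comp (Polynomial.C : E0 →+* E0[X])) := by
      constructor
      · letI : Field (E0[X] ⧸ p) := Ideal.Quotient.field p
        exact RingHom.injective _
      · intro z
        obtain ⟨f, rfl⟩ := Ideal.Quotient.mk_surjective z
        refine ⟨f.coeff 0, ?_⟩
        show Ideal.Quotient.mk p (Polynomial.C (f.coeff 0)) = Ideal.Quotient.mk p f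
        rw [Ideal.Quotient.eq]
        refine Ideal.mem_span_singleton.2 ?_
        rw [Polynomial.X_dvd_iff]
        simp
    have h2 : finrank E0 (S ⧸ q.1) = finrank (E0[X] ⧸ p) (S ⧸ q.1) := by
      refine Algebra.finrank_eq_of_equiv_equiv (RingEquiv.ofBijective _ hbij) (RingEquiv.refl _) ?_
      ext z
      rfl
    rw [h2, ← h1]
    exact hqf
  · intro h
    apply hi0
    have h1 := congrFun h i0
    exact Ideal.Quotient.eq_zero_iff_mem.1 h1
  · exact Ideal.Quotient.eq_zero_iff_mem.2 hal
  · have h1 : MvPolynomial.eval₂ (algebraMap E0 (S ⧸ q.1)) (fun i => Ideal.Quotient.mk q.1 (a i)) A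
        = Ideal.Quotient.mk q.1 (MvPolynomial.eval₂ g a A) := by
      rw [MvPolynomial.hom_eval₂]
      rfl
    rw [h1]
    exact Ideal.Quotient.eq_zero_iff_mem.2 hAq

end Pool.Agent.Helper71.CP2
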